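import Mathlib
import Pool.Agent.Lib.MP_3587c3_al.Final

set_option autoImplicit false

/-!
# MP_3587c3_al: simultaneous intersections equal to `O_p(G)` in soluble extensions
-/

namespace Pool.Agent.Results.MP_3587c3_al.SimultaneousRegular

open Pool.Agent.Lib.MP_3587c3_al

universe u

/-- Let `R` be a soluble normal subgroup of the finite group `G`, let `P i` be Sylow subgroups for
distinct primes `p i`, and let `y` be such that `P_i R ∩ (P_i R)^y` is normal in `G` for every `i`
(take `y = 1` if `R = G`). If every `i` satisfies one of: `P i` is normal; `P i` is abelian; `p i`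
is odd and, moreover, `R` has odd order or `p i` is not a Mersenne prime; for every normal subgroup
`K` of `G` inside `R` there is `g` with `P_i K ∩ (P_i K)^g` normal; then some `x` gives
`P_i ∩ P_i^x = O_{p_i}(G)` for all `i` at once. -/
theorem result : ∀ (G : Type u) [Group G] [Finite G] (R : Subgroup G) [R.Normal],
    Group.IsSolvable R → ∀ (n : ℕ) (p : Fin n → ℕ), (∀ i, (p i).Prime) →
    Function.Injective p → ∀ (P : ∀ i, Sylow (p i) G) (y : G),
    (∀ i, (conjInter ((P i : Subgroup G) ⊔ R) y).Normal) →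
    (∀ i, (P i : Subgroup G).Normal ∨ (∀ a ∈ P i, ∀ b ∈ P i, a * b = b * a) ∨
      (p i ≠ 2 ∧ (Odd (Nat.card R) ∨ ∀ k, p i + 1 ≠ 2 ^ k)) ∨
      ∀ K : Subgroup G, K.Normal → K ≤ R →
        ∃ g : G, (conjInter ((P i : Subgroup G) ⊔ K) g).Normal) →
    ∃ x : G, ∀ i, conjInter (P i : Subgroup G) x = pCore (p i) G := by
  intro G _ _ R _ hR n p hp hinj P y hy hgood
  have hpf : ∀ i, Fact (p i).Prime := fun i => ⟨hp i⟩
  obtain ⟨x, hx⟩ := regular_ext p hinj (Nat.card G) G le_rfl R hR P (by
    intro i
    rcases hgood i with h | h | h | h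
    · exact Or.inl h
    · exact Or.inr (Or.inl h)
    · exact Or.inr (Or.inr (Or.inl h))
    · refine Or.inr (Or.inr (Or.inr ?_))
      intro K hK hKR
      obtain ⟨g, hg⟩ := h K hK hKR
      exact ⟨g, fun a ha hga b => elem_of_normal _ g hg a (Subgroup.mem_sup_left ha) hga b⟩) y
    (fun i a ha hya b => elem_of_normal _ y (hy i) a (Subgroup.mem_sup_left ha) hya b)
  exact ⟨x, fun i => conjInter_eq_pCore (P i) x (hx i)⟩

end Pool.Agent.Results.MP_3587c3_al.SimultaneousRegular
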