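import Mathlib
import Pool.Agent.Lib.MP_3587c3_al.Final3
import Pool.Agent.Lib.MP_3587c3_al.ExistsY

set_option autoImplicit false

/-!
# MP_3587c3_al: simultaneous minimal intersections for groups soluble by groups with cyclic
Sylow subgroups
-/

namespace Pool.Agent.Results.MP_3587c3_al.SolubleByCyclic

open Pool.Agent.Lib.MP_3587c3_al

universe u

/-- `s` is exceptional for `p`: `p = 2` and `s` is of the form `2 ^ k - 1` or `2 ^ k + 1`, or
`s = 2` and `p` is of the form `2 ^ k - 1` -/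
def Exceptional (p s : ℕ) : Prop :=
  (p = 2 ∧ ∃ k : ℕ, s + 1 = 2 ^ k ∨ s = 2 ^ k + 1) ∨ (s = 2 ∧ ∃ k : ℕ, p + 1 = 2 ^ k)

/-- Let `N ≤ R` be normal subgroups of the finite group `G`, `N` nilpotent and `R` soluble, let
`P i` be Sylow subgroups for distinct primes `p i`. Suppose that there is `y` such that
`P_i R ∩ (P_i R)^y` is normal in `G` for every `i`, or that for every `i` the group `P_i R / R` is
cyclic (`P_i ≤ ⟨c⟩ R`) or some subgroup `M`, which does not contain all elements of `p_i`-power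
order, is such that `P_i R ∩ (P_i R)^x` is normal for all `x` outside `M`. Let `J` be a set of
indices such that for `i ∈ J`: `P_i N` is
normal, or `P_i N / N` is abelian, or for every normal subgroup `K` of `G` with `N ≤ K ≤ R` there
is `g` with `P_i K ∩ (P_i K)^g` normal. Suppose that no `p i` which divides the order of `R / N` is
exceptional for a `p j` with `j ≠ i`, `j ∉ J`; this is automatic if all `p i` are odd or `R = N`.
Then for all `g_i ∈ G` some `x` gives a minimal intersection `P_i ∩ P_i^x` inside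
`P_i ∩ P_i^{g_i}`, for all `i` at once. -/
theorem result : ∀ (G : Type u) [Group G] [Finite G] (N R : Subgroup G) [N.Normal] [R.Normal],
    N ≤ R → Group.IsNilpotent N → Group.IsSolvable R → ∀ (n : ℕ) (p : Fin n → ℕ),
    (∀ i, (p i).Prime) → Function.Injective p → ∀ (P : ∀ i, Sylow (p i) G),
    ((∃ y : G, ∀ i, (conjInter ((P i : Subgroup G) ⊔ R) y).Normal) ∨
      ∀ i, (∃ c : G, (P i : Subgroup G) ≤ Subgroup.zpowers c ⊔ R) ∨ ∃ M : Subgroup G,
        (∃ z : G, z ∉ M ∧ ∃ k : ℕ, z ^ (p i ^ k) = 1) ∧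
          ∀ x, x ∉ M → (conjInter ((P i : Subgroup G) ⊔ R) x).Normal) → ∀ J : Set (Fin n),
    (∀ i ∈ J, ((P i : Subgroup G) ⊔ N).Normal ∨ (∀ a ∈ P i, ∀ b ∈ P i, a * b * a⁻¹ * b⁻¹ ∈ N) ∨
      ∀ K : Subgroup G, K.Normal → N ≤ K → K ≤ R →
        ∃ g : G, (conjInter ((P i : Subgroup G) ⊔ K) g).Normal) →
    (∀ i j, i ≠ j → p i ∣ N.relIndex R → j ∉ J → ¬ Exceptional (p j) (p i)) →
    ∀ g : Fin n → G, ∃ x : G, ∀ i, conjInter (P i : Subgroup G) x ≤
      conjInter (P i : Subgroup G) (g i) ∧ IsMinimalInter (P i : Subgroup G) x := by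
  intro G _ _ N R _ _ hNR hN hR n p hp hinj P hY J hJ hX g
  classical
  have hpf : ∀ i, Fact (p i).Prime := fun i => ⟨hp i⟩
  obtain ⟨y, hy⟩ : ∃ y : G, ∀ i, (conjInter ((P i : Subgroup G) ⊔ R) y).Normal := by
    rcases hY with h | h
    · exact h
    · exact exists_y p hinj R P h
  choose g' hg' hmin using fun i => exists_minimalInter (P i : Subgroup G) (g i)
  obtain ⟨x, hx⟩ := two_layer3 N R hNR hN hR p hinj
    (fun i => {s | s = p i ∨ (i ∉ J ∧ Exceptional (p i) s)}) (fun i => Or.inl rfl) (by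
      rintro i j hij s hs hsd (h1 | ⟨h1, h2⟩) (h3 | ⟨h3, h4⟩)
      · exact absurd (hinj (h1.symm.trans h3)) hij
      · subst h1
        exact absurd h4 (hX i j hij hsd h3)
      · subst h3
        exact absurd h2 (hX j i (Ne.symm hij) hsd h1)
      · have hsi : s ≠ p i := by
          rintro rfl
          exact hX i j hij hsd h3 h4
        have hsj : s ≠ p j := by
          rintro rfl
          exact hX j i (Ne.symm hij) hsd h1 h2
        refine ⟨hsi, hsj, fun h => ?_, fun h => ?_⟩
        · rcases h4 with ⟨h5, _⟩ | ⟨h5, _⟩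
          · exact hij (hinj (h.trans h5.symm))
          · exact hsi (h5.trans h.symm)
        · rcases h2 with ⟨h5, _⟩ | ⟨h5, _⟩
          · exact hij (hinj (h5.trans h.symm))
          · exact hsj (h5.trans h.symm)) P (by
    intro i
    by_cases hi : i ∈ J
    · rcases hJ i hi with h | h | h
      · exact Or.inl h
      · exact Or.inr (Or.inl h)
      · refine Or.inr (Or.inr (Or.inr (Or.inr ?_)))
        intro K hK hNK hKR
        obtain ⟨g, hg⟩ := h K hK hNK hKR
        exact ⟨g, fun a ha hga b => elem_of_normal _ g hg a (Subgroup.mem_sup_left ha) hga b⟩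
    · by_cases h2 : p i = 2
      · refine Or.inr (Or.inr (Or.inr (Or.inl ⟨h2, fun r _ _ hr k => ?_⟩)))
        constructor
        · intro h
          exact hr (Or.inr ⟨hi, Or.inl ⟨h2, k, Or.inl h⟩⟩)
        · intro h
          exact hr (Or.inr ⟨hi, Or.inl ⟨h2, k, Or.inr h⟩⟩)
      · refine Or.inr (Or.inr (Or.inl ⟨h2, ?_⟩))
        by_cases hk : ∃ k : ℕ, p i + 1 = 2 ^ k
        · exact Or.inl (Or.inr ⟨hi, Or.inr ⟨rfl, hk⟩⟩)
        · exact Or.inr (Or.inr fun k h => hk ⟨k, h⟩)) y
    (fun i a ha hya b => elem_of_normal _ y (hy i) a (Subgroup.mem_sup_left ha) hya b) g'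
  refine ⟨x, fun i => ?_⟩
  have hle : conjInter (P i : Subgroup G) x ≤ conjInter (P i : Subgroup G) (g' i) :=
    fun a ha => ⟨ha.1, hx i a ha.1 ha.2⟩
  refine ⟨le_trans hle (hg' i), fun z hz => ?_⟩
  have h1 := hmin i z (le_trans hz hle)
  have h2 := hmin i x hle
  rw [h1, h2]

end Pool.Agent.Results.MP_3587c3_al.SolubleByCyclic
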